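import Pool.Agent.H15.TG.Targets

/-!
Row RPL of the board `tga_modules` (MP_51eb24_ag).
-/

set_option autoImplicit false

namespace Pool.Agent.H20.TG

open MvPolynomial Pool.Agent.H2.ST Pool.Agent.H15.TG

/-- integer vectors spanning a space contain a basis of it -/
theorem rpl_basis {k : Type} [Field k] {d : ℕ} (S : Set (Fin d → ℤ))
    (sp : ∀ l : Fin d → k, (∀ χ ∈ S, ∑ j, l j * ((χ j : ℤ) : k) = 0) → l = 0) :
    ∃ χ : Fin d → Fin d → ℤ, (∀ i, χ i ∈ S) ∧
      (Matrix.of fun i j => ((χ i j : ℤ) : k)).det ≠ 0 := by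
  classical
  let F : (Fin d → ℤ) → Fin d → k := fun χ j => ((χ j : ℤ) : k)
  have hspan : Submodule.span k (F '' S) = ⊤ := by
    by_contra hne
    obtain ⟨φ, hφ, hle⟩ := Submodule.exists_le_ker_of_lt_top _ (lt_top_iff_ne_top.mpr hne)
    apply hφ
    have h1 : (fun j => φ (Pi.single j 1)) = (0 : Fin d → k) := by
      apply sp
      intro χ hχ
      have h2 : φ (F χ) = 0 := hle (Submodule.subset_span ⟨χ, hχ, rfl⟩)
      rw [← h2]
      have h3 : F χ = ∑ j, ((χ j : ℤ) : k) • (Pi.single j (1 : k) : Fin d → k) := by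
        ext i
        rw [Finset.sum_apply]
        simp [F, Pi.single_apply]
      rw [h3, map_sum]
      refine Finset.sum_congr rfl fun j _ => ?_
      rw [map_smul, smul_eq_mul, mul_comm]
    apply LinearMap.pi_ext'
    intro j
    apply LinearMap.ext_ring
    exact congrFun h1 j
  obtain ⟨b, hb, hbs, hbl⟩ := exists_linearIndependent k (F '' S)
  rw [hspan] at hbs
  let B : Module.Basis b k (Fin d → k) := Module.Basis.mk hbl (by
    rw [Subtype.range_coe_subtype, Set.setOf_mem_eq, hbs])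
  haveI : Finite b := Module.Finite.finite_basis B
  haveI : Fintype b := Fintype.ofFinite b
  have hcard : Fintype.card b = d := by
    rw [← Module.finrank_eq_card_basis B, Module.finrank_fin_fun]
  let e : Fin d ≃ b := (Fintype.equivFinOfCardEq hcard).symm
  have hch : ∀ i : Fin d, ∃ χ ∈ S, F χ = (e i).1 := fun i => hb (e i).2
  choose χ hχ hχ2 using hch
  refine ⟨χ, hχ, ?_⟩
  have hli : LinearIndependent k (fun i => F (χ i)) := by
    have h1 := hbl.comp e e.injective
    have h2 : (fun i => F (χ i)) = (Subtype.val : b → Fin d → k) ∘ e := by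
      funext i
      exact hχ2 i
    rw [h2]
    exact h1
  have h3 : IsUnit (Matrix.of fun i j => ((χ i j : ℤ) : k)) := by
    rw [← Matrix.linearIndependent_rows_iff_isUnit]
    exact hli
  rw [Matrix.isUnit_iff_isUnit_det] at h3
  exact h3.ne_zero

/-- a derivation killing a subalgebra kills the elements algebraic over it -/
theorem rpl_der {k A : Type} [Field k] [CharZero k] [CommRing A] [IsDomain A] [Algebra k A]
    (R : Subalgebra k A) (D : Derivation k A A) (hD : ∀ r ∈ R, D r = 0) (z : A)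
    (hz : IsAlgebraic R z) : D z = 0 := by
  classical
  let D' : Derivation R A A := Derivation.mk'
    { toFun := D
      map_add' := map_add D
      map_smul' := by
        intro r a
        change D (r.1 * a) = r.1 * D a
        rw [Derivation.leibniz, hD r.1 r.2, smul_zero, add_zero]
        rfl } (by
      intro a b
      change D (a * b) = a • D b + b • D a
      exact D.leibniz a b)
  have hD' : ∀ a, D' a = D a := fun _ => rfl
  have hex : ∃ n : ℕ, ∃ P : Polynomial R, P ≠ 0 ∧ Polynomial.aeval z P = 0 ∧ P.natDegree = n := by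
    obtain ⟨P, hP, hP0⟩ := hz
    exact ⟨_, P, hP, hP0, rfl⟩
  obtain ⟨P, hP, hP0, hPn⟩ := Nat.find_spec hex
  have hmin : ∀ Q : Polynomial R, Q.natDegree < P.natDegree → Polynomial.aeval z Q = 0 →
      Q = 0 := by
    intro Q hQ hQ0
    by_contra hne
    rw [hPn] at hQ
    exact Nat.find_min hex hQ ⟨Q, hne, hQ0, rfl⟩
  haveI : CharZero A := charZero_of_injective_algebraMap (algebraMap k A).injective
  haveI : CharZero R := charZero_of_injective_algebraMap (algebraMap k R).injective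
  have hdeg : P.natDegree ≠ 0 := by
    intro h0
    rw [Polynomial.eq_C_of_natDegree_eq_zero h0, Polynomial.aeval_C] at hP0
    apply hP
    rw [Polynomial.eq_C_of_natDegree_eq_zero h0]
    have : P.coeff 0 = 0 := Subtype.ext hP0
    rw [this, Polynomial.C_0]
  have h1 := Derivation.map_aeval D' P z
  rw [hP0, map_zero] at h1
  have h2 : Polynomial.aeval z (Polynomial.derivative P) ≠ 0 := by
    intro h3
    have h4 := hmin _ (Polynomial.natDegree_derivative_lt hdeg) h3
    exact hdeg (Polynomial.natDegree_eq_zero_of_derivative_eq_zero h4)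
  rw [smul_eq_mul] at h1
  have h5 := (mul_eq_zero.mp h1.symm).resolve_left h2
  rwa [hD'] at h5

/-- the subalgebra of the invariants central in the centralizer of `f` -/
noncomputable def rK {k : Type} [Field k] {m d : ℕ} {W : (Fin d → ℤ) → Submodule k (Pol k m)}
    (h : Gr W) (K : Subalgebra k (Pol k m)) (f : Pol k m) : Subalgebra k (Pol k m) :=
  K ⊓ zeroPart h ⊓ Cen (Cf K f : Set (Pol k m))

theorem mem_rK {k : Type} [Field k] {m d : ℕ} {W : (Fin d → ℤ) → Submodule k (Pol k m)}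
    {h : Gr W} {K : Subalgebra k (Pol k m)} {f z : Pol k m} :
    z ∈ rK h K f ↔ z ∈ K ∧ z ∈ W 0 ∧ ∀ g ∈ Cf K f, br g z = 0 := by
  unfold rK
  rw [Algebra.mem_inf, Algebra.mem_inf, mem_Cen]
  constructor
  · rintro ⟨⟨h1, h2⟩, h3⟩
    refine ⟨h1, h2, ?_⟩
    intro g hg
    rw [br_anti, h3 g hg, neg_zero]
  · rintro ⟨h1, h2, h3⟩
    refine ⟨⟨h1, h2⟩, ?_⟩
    intro g hg
    rw [br_anti, h3 g hg, neg_zero]

section

variable {k : Type} [Field k] [IsAlgClosed k] [CharZero k] {m d : ℕ}
  {W : (Fin d → ℤ) → Submodule k (Pol k m)} {K : Subalgebra k (Pol k m)}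
  {H : Fin d → Pol k m} {f : Pol k m}

theorem rpl_H (h : Fd W K H f) (j : Fin d) : H j ∈ Cf K f := by
  rw [mem_Cf]
  refine ⟨h.hK j, ?_⟩
  have h1 := h.eu j 0 f h.fK h.f0
  rw [br_anti, h1, Pi.zero_apply, Int.cast_zero, zero_smul, neg_zero]

/-- two elements of `rK` are algebraically dependent -/
theorem rpl_dep (hAI1 : T_AI1) (hTR0 : T_TR0) (hCOC : T_COC) (h : Fd W K H f) (a b : Pol k m)
    (ha : a ∈ rK h.toGr K f) (hb : b ∈ rK h.toGr K f) :
    ¬ AlgebraicIndependent k ![a, b] := by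
  classical
  intro hind
  obtain ⟨χ, hχ, hdet⟩ := rpl_basis (k := k) {χ | Oc W K χ} (fun l hl => h.sp l hl)
  have hg : ∀ i, ∃ g ∈ Cf K f, g ∈ W (χ i) ∧ g ≠ 0 := fun i =>
    hCOC k m d W K H f h (χ i) (hχ i)
  choose g hg1 hg2 hg3 using hg
  rw [mem_rK] at ha hb
  have hy : ∀ i : Fin 2, ![a, b] i ∈ K ∧ ![a, b] i ∈ W 0 ∧ ∀ g ∈ Cf K f, br g (![a, b] i) = 0 := by
    intro i
    fin_cases i
    · exact ha
    · exact hb
  have key := hAI1 k (Pol k m) (Fin 2) (Fin d) (⊥ : Ideal (Pol k m)) ![a, b] H (fun i => ad (g i))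
    Ideal.isPrime_bot (by
      intro i x hx
      rw [Ideal.mem_bot] at hx ⊢
      rw [hx, map_zero]) (by
      intro i j
      rw [Ideal.mem_bot, ad_apply]
      exact (hy j).2.2 _ (hg1 i)) (by
      rw [Ideal.mem_bot]
      have h1 : (Matrix.of fun i j => (ad (g i)) (H j)) =
          Matrix.of fun i j => (-(g i)) * (C : k →+* Pol k m).mapMatrix
            (Matrix.of fun i j => ((χ i j : ℤ) : k)) i j := by
        ext1 i j
        rw [Matrix.of_apply, Matrix.of_apply, ad_apply, br_anti,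
          h.eu j (χ i) (g i) (mem_Cf.mp (hg1 i)).1 (hg2 i), RingHom.mapMatrix_apply,
          Matrix.map_apply, Matrix.of_apply, smul_eq_C_mul]
        ring
      rw [h1, Matrix.det_mul_column]
      refine mul_ne_zero ?_ ?_
      · exact Finset.prod_ne_zero_iff.mpr fun i _ => neg_ne_zero.mpr (hg3 i)
      · rw [← RingHom.map_det]
        intro h2
        exact hdet ((C_injective (Fin m ⊕ Fin m) k) (by rw [h2, map_zero]))) (by
      intro P hP
      rw [Ideal.mem_bot] at hP
      exact (algebraicIndependent_iff.mp hind) P hP)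
  have hind2 : AlgebraicIndependent k (Sum.elim ![a, b] H) := by
    rw [algebraicIndependent_iff]
    intro P hP
    exact key P (by rw [Ideal.mem_bot]; exact hP)
  have hcard := hTR0 k m d W K H f h (Fin 2 ⊕ Fin d) (Sum.elim ![a, b] H) (by
    rintro (i | j)
    · rw [Sum.elim_inl, mem_Cf]
      refine ⟨⟨(hy i).1, ?_⟩, (hy i).2.1⟩
      exact (hy i).2.2 f (mem_Cf.mpr ⟨h.fK, br_self f⟩)
    · rw [Sum.elim_inr]
      exact ⟨rpl_H h j, h.h0 j⟩) hind2
  rw [Fintype.card_sum, Fintype.card_fin, Fintype.card_fin] at hcard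
  omega

/-- `rK` is algebraically closed in the polynomial ring -/
theorem rpl_cl (hCFC : T_CFC) (hFAC : T_FAC) (h : Fd W K H f) (z : Pol k m)
    (hz : IsAlgebraic (rK h.toGr K f) z) : z ∈ rK h.toGr K f := by
  classical
  by_cases hz0 : z = 0
  · rw [hz0]
    exact (rK h.toGr K f).zero_mem
  obtain ⟨P, hP, hPz⟩ := hz.exists_nonzero_coeff_and_aeval_eq_zero
    (mem_nonZeroDivisors_of_ne_zero hz0)
  have hP0 : (P.coeff 0).1 ≠ 0 := fun h1 => hP (Subtype.ext h1)
  obtain ⟨t, ht⟩ : ∃ t : Pol k m, z * t = - (P.coeff 0).1 := by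
    refine ⟨Polynomial.aeval z P.divX, ?_⟩
    have h1 := congrArg (Polynomial.aeval z) (Polynomial.divX_mul_X_add P)
    rw [hPz, map_add, map_mul, Polynomial.aeval_X, Polynomial.aeval_C, mul_comm] at h1
    exact (eq_neg_of_add_eq_zero_left h1)
  have hc := mem_rK.mp (P.coeff 0).2
  have hfCf : f ∈ Cf K f := mem_Cf.mpr ⟨h.fK, br_self f⟩
  have hne : z * t ≠ 0 := by
    rw [ht]
    exact neg_ne_zero.mpr hP0
  have hzt : z * t ∈ Cf K f := by
    rw [ht]
    exact (Cf K f).neg_mem (mem_Cf.mpr ⟨hc.1, hc.2.2 f hfCf⟩)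
  have hzC : z ∈ Cf K f := (hCFC k m d W K H f h z t hne hzt).1
  have hztW : z * t ∈ W 0 := by
    rw [ht]
    exact (W 0).neg_mem hc.2.1
  obtain ⟨ψ, ψ', hψ, hψ', _⟩ := hFAC k (Pol k m) (Fin d → ℤ) W h.toGr 0 z t hztW hne
  have hψ0 : ψ = 0 := by
    by_contra hne0
    apply hP0
    have h1 : Polynomial.aeval z P = ∑ i ∈ Finset.range (P.natDegree + 1),
        (P.coeff i).1 * z ^ i := by
      rw [Polynomial.aeval_eq_sum_range]
      rfl
    have h2 := congrArg (fun x => cmp h.toGr x 0) h1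
    beta_reduce at h2
    rw [hPz, LinearMap.map_zero, map_sum, Finsupp.finsetSum_apply, Finsupp.zero_apply] at h2
    have h3 : ∀ i ∈ Finset.range (P.natDegree + 1), i ≠ 0 →
        cmp h.toGr ((P.coeff i).1 * z ^ i) 0 = 0 := by
      intro i _ hi
      have h4 : (P.coeff i).1 * z ^ i ∈ W (i • ψ) := by
        have := h.mul _ _ _ _ (mem_rK.mp (P.coeff i).2).2.1 (pow_mem_gr h.toGr hψ i)
        rwa [zero_add] at this
      rw [cmp_of_mem h.toGr h4, Finsupp.single_apply, if_neg]
      intro h5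
      rcases smul_eq_zero.mp h5 with h6 | h6
      · exact hi h6
      · exact hne0 h6
    rw [Finset.sum_eq_single 0 h3 (fun h4 => absurd (Finset.mem_range.mpr (Nat.succ_pos _)) h4),
      pow_zero, mul_one, cmp_of_mem h.toGr hc.2.1, Finsupp.single_eq_same] at h2
    exact h2.symm
  rw [hψ0] at hψ
  rw [mem_rK]
  refine ⟨(mem_Cf.mp hzC).1, hψ, ?_⟩
  intro g hg
  rw [← ad_apply]
  refine rpl_der (rK h.toGr K f) (ad g) ?_ z hz
  intro r hr
  rw [ad_apply]
  exact (mem_rK.mp hr).2.2 g hg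

end

theorem pf_RPL (hUNI : T_UNI) (hAI1 : T_AI1) (hTR0 : T_TR0) (hCOC : T_COC) (hCFC : T_CFC)
    (hCGR : T_CGR) (hFAC : T_FAC) : T_RPL := by
  intro k _ _ _ m d W K H f h
  obtain ⟨p, hp, hgen⟩ := hUNI k (Fin m ⊕ Fin m) (rK h.toGr K f)
    (fun z hz => rpl_cl hCFC hFAC h z hz)
    (fun a ha b hb => rpl_dep hAI1 hTR0 hCOC h a b ha hb)
  let f' : Pol k m := p - C (constantCoeff p)
  have hf' : f' ∈ rK h.toGr K f :=
    (rK h.toGr K f).sub_mem hp ((rK h.toGr K f).algebraMap_mem _)
  have hfK : f ∈ rK h.toGr K f := by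
    rw [mem_rK]
    refine ⟨h.fK, h.f0, ?_⟩
    intro g hg
    rw [br_anti, (mem_Cf.mp hg).2, neg_zero]
  have hgen' : ∀ a ∈ rK h.toGr K f, a ∈ Algebra.adjoin k {f'} := by
    intro a ha
    have h1 := hgen a ha
    have h2 : Algebra.adjoin k {p} ≤ Algebra.adjoin k {f'} := by
      apply Algebra.adjoin_le
      intro x hx
      rw [Set.mem_singleton_iff] at hx
      rw [hx]
      have h3 : p = f' + C (constantCoeff p) := (sub_add_cancel _ _).symm
      rw [h3]
      exact (Algebra.adjoin k {f'}).add_mem (Algebra.subset_adjoin rfl)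
        ((Algebra.adjoin k {f'}).algebraMap_mem _)
    exact h2 h1
  obtain ⟨Q, hQ⟩ : ∃ Q : Polynomial k, Polynomial.aeval f' Q = f := by
    have h1 := hgen' f hfK
    rw [Algebra.adjoin_singleton_eq_range_aeval] at h1
    exact h1
  let u : Pol k m := Polynomial.aeval f' (Polynomial.derivative Q)
  have hbr : ∀ x, br f x = u * br f' x := by
    intro x
    have h1 := Derivation.map_aeval (ad x) Q f'
    rw [hQ, ad_apply, ad_apply, smul_eq_mul] at h1
    rw [br_anti, h1, br_anti f' x]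
    ring
  have hu : u ≠ 0 := by
    intro h0
    have h1 : ∀ s, br f (X s) = 0 := by
      intro s
      rw [hbr, h0, zero_mul]
    obtain ⟨c, hc⟩ := const_of_br f h1
    have h2 := h.fc0
    rw [hc, constantCoeff_C] at h2
    apply h.fn
    rw [hc, h2, C_0]
  have hbu : br f' u = 0 := by
    have h1 := Derivation.map_aeval (ad f') (Polynomial.derivative Q) f'
    rw [ad_apply, ad_apply, br_self, smul_zero] at h1
    exact h1
  have hCf : ∀ x, x ∈ Cf K f' ↔ x ∈ Cf K f := by
    intro x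
    rw [mem_Cf, mem_Cf]
    constructor
    · rintro ⟨h1, h2⟩
      exact ⟨h1, by rw [hbr, h2, mul_zero]⟩
    · rintro ⟨h1, h2⟩
      refine ⟨h1, ?_⟩
      rw [hbr] at h2
      exact (mul_eq_zero.mp h2).resolve_left hu
  have hf'm := mem_rK.mp hf'
  have hiter : ∀ (n : ℕ) (g : Pol k m), (br f)^[n] g = u ^ n * (br f')^[n] g := by
    intro n g
    induction n with
    | zero => simp
    | succ n ih =>
      rw [Function.iterate_succ_apply', Function.iterate_succ_apply', ih, hbr, br_mul, br_pow,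
        hbu]
      ring
  refine ⟨f', { toFd := { toDat := h.toDat, fK := hf'm.1, f0 := hf'm.2.1, fc0 := ?_, fn := ?_, fl := ?_ }, ce := ?_ }⟩
  · change constantCoeff (p - C (constantCoeff p)) = 0
    rw [map_sub, constantCoeff_C, sub_self]
  · intro h0
    have h1 : ∀ s, br f (X s) = 0 := by
      intro s
      rw [hbr, h0, zero_br, mul_zero]
    obtain ⟨c, hc⟩ := const_of_br f h1
    have h2 := h.fc0
    rw [hc, constantCoeff_C] at h2
    apply h.fn
    rw [hc, h2, C_0]
  · intro g hg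
    obtain ⟨n, hn⟩ := h.fl g hg
    refine ⟨n, ?_⟩
    rw [hiter] at hn
    exact (mul_eq_zero.mp hn).resolve_left (pow_ne_zero n hu)
  · intro z hz hz0 hzc
    apply hgen'
    rw [mem_rK]
    exact ⟨hz, hz0, fun g hg => hzc g ((hCf g).mpr hg)⟩

end Pool.Agent.H20.TG
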