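import Pool.Agent.H15.TG.Targets

/-!
Row UNI of the board `tga_modules` (MP_51eb24_ag).
-/

set_option autoImplicit false

namespace Pool.Agent.H20.TG

open MvPolynomial Pool.Agent.H2.ST Pool.Agent.H15.TG

/-- a nonconstant polynomial restricts nonconstantly to a line -/
theorem uni_line {k : Type} [Field k] [Infinite k] {σ : Type} (z : MvPolynomial σ k)
    (hz : ∀ c : k, z ≠ C c) :
    ∃ θ : MvPolynomial σ k →ₐ[k] Polynomial k, 0 < (θ z).natDegree := by
  have h1 : ∃ a a' : σ → k, eval a z ≠ eval a' z := by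
    by_contra h
    push Not at h
    refine hz (eval 0 z) ?_
    refine MvPolynomial.funext ?_
    intro a
    rw [eval_C]
    exact h a 0
  obtain ⟨a, a', haa⟩ := h1
  let θ : MvPolynomial σ k →ₐ[k] Polynomial k :=
    aeval (fun i => Polynomial.C (a i) + Polynomial.X * Polynomial.C (a' i - a i))
  refine ⟨θ, ?_⟩
  have h0 : ∀ w : MvPolynomial σ k, Polynomial.eval 0 (θ w) = eval a w := by
    intro w
    have : ((Polynomial.aeval (0 : k)).comp θ : MvPolynomial σ k →ₐ[k] k) = aeval a := by
      apply MvPolynomial.algHom_ext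
      intro i
      simp [θ]
    have h2 := congrArg (fun φ : MvPolynomial σ k →ₐ[k] k => φ w) this
    have h3 : (aeval a w : k) = eval a w := by
      rw [← MvPolynomial.coe_aeval_eq_eval]
      rfl
    rw [← h3, ← h2, ← Polynomial.coe_aeval_eq_eval]
    rfl
  have h1 : ∀ w : MvPolynomial σ k, Polynomial.eval 1 (θ w) = eval a' w := by
    intro w
    have : ((Polynomial.aeval (1 : k)).comp θ : MvPolynomial σ k →ₐ[k] k) = aeval a' := by
      apply MvPolynomial.algHom_ext
      intro i
      simp [θ]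
    have h2 := congrArg (fun φ : MvPolynomial σ k →ₐ[k] k => φ w) this
    have h3 : (aeval a' w : k) = eval a' w := by
      rw [← MvPolynomial.coe_aeval_eq_eval]
      rfl
    rw [← h3, ← h2, ← Polynomial.coe_aeval_eq_eval]
    rfl
  rw [Nat.pos_iff_ne_zero]
  intro h
  have h3 := Polynomial.eq_C_of_natDegree_eq_zero h
  apply haa
  rw [← h0 z, ← h1 z, h3]
  simp

/-- the line is injective on an algebra of transcendence degree one -/
theorem uni_inj {k : Type} [Field k] {σ : Type} (A : Subalgebra k (MvPolynomial σ k))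
    (hA : ∀ a ∈ A, ∀ b ∈ A, ¬ AlgebraicIndependent k ![a, b])
    (θ : MvPolynomial σ k →ₐ[k] Polynomial k) (z : MvPolynomial σ k) (hz : z ∈ A)
    (hθ : 0 < (θ z).natDegree) (w : MvPolynomial σ k) (hw : w ∈ A) (h0 : θ w = 0) : w = 0 := by
  by_contra hw0
  -- the image of `z` is transcendental
  have htr : ∀ q : Polynomial k, q ≠ 0 → Polynomial.aeval (θ z) q ≠ 0 := by
    intro q hq h
    have h2 : q.comp (θ z) = 0 := by
      rw [← h]
      rfl
    rw [Polynomial.comp_eq_zero_iff] at h2
    rcases h2 with h2 | h2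
    · exact hq h2
    · rw [h2.2] at hθ
      simp at hθ
  -- `w` is algebraic over `k[z]`
  have h1 := hA w hw z hz
  rw [algebraicIndependent_iff] at h1
  push Not at h1
  obtain ⟨P, hP, hP0⟩ := h1
  let P' : Polynomial (MvPolynomial (Fin 1) k) := finSuccEquiv k 1 P
  have hP' : P' ≠ 0 := by
    intro h
    apply hP0
    have := (finSuccEquiv k 1).injective (a₁ := P) (a₂ := 0)
    apply this
    rw [map_zero]
    exact h
  -- divide by the power of the variable
  obtain ⟨n, Q, hQ, hPQ⟩ : ∃ (n : ℕ) (Q : Polynomial (MvPolynomial (Fin 1) k)),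
      Q.coeff 0 ≠ 0 ∧ P' = Polynomial.X ^ n * Q := by
    obtain ⟨Q, hQ, hQ'⟩ := Polynomial.exists_eq_pow_rootMultiplicity_mul_and_not_dvd P' hP' 0
    rw [Polynomial.C_0, sub_zero] at hQ hQ'
    refine ⟨_, Q, ?_, hQ⟩
    rw [Polynomial.X_dvd_iff] at hQ'
    exact hQ'
  have hev : ∀ R : MvPolynomial (Fin 2) k, aeval ![w, z] R =
      Polynomial.eval₂ (aeval ![z] : MvPolynomial (Fin 1) k →ₐ[k] MvPolynomial σ k).toRingHom w
        (finSuccEquiv k 1 R) := by
    intro R
    induction R using MvPolynomial.induction_on with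
    | C a =>
      rw [show finSuccEquiv k 1 (C a) = Polynomial.C (C a) from (finSuccEquiv k 1).commutes a,
        Polynomial.eval₂_C]
      simp
    | add p q hp hq => rw [map_add, map_add, Polynomial.eval₂_add, hp, hq]
    | mul_X p i hp =>
      rw [map_mul, map_mul, Polynomial.eval₂_mul, hp]
      congr 1
      rcases Fin.exists_fin_two.mp ⟨i, rfl⟩ with h | h
      · rw [h, aeval_X, finSuccEquiv_X_zero, Polynomial.eval₂_X]
        rfl
      · rw [h, aeval_X]
        have h2 : (1 : Fin 2) = Fin.succ 0 := rfl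
        rw [h2, finSuccEquiv_X_succ, Polynomial.eval₂_C]
        simp
  rw [hev P] at hP
  change Polynomial.eval₂ _ w P' = 0 at hP
  rw [hPQ, Polynomial.eval₂_mul, Polynomial.eval₂_X_pow] at hP
  have h2 : Polynomial.eval₂
      (aeval ![z] : MvPolynomial (Fin 1) k →ₐ[k] MvPolynomial σ k).toRingHom w Q = 0 := by
    rcases mul_eq_zero.mp hP with h | h
    · exact absurd h (pow_ne_zero n hw0)
    · exact h
  have h3 := congrArg θ h2
  rw [map_zero] at h3
  have h4 : θ (Polynomial.eval₂
      (aeval ![z] : MvPolynomial (Fin 1) k →ₐ[k] MvPolynomial σ k).toRingHom w Q) =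
      Polynomial.eval₂ ((θ : MvPolynomial σ k →+* Polynomial k).comp
        (aeval ![z] : MvPolynomial (Fin 1) k →ₐ[k] MvPolynomial σ k).toRingHom) (θ w) Q :=
    Polynomial.hom_eval₂ Q _ (θ : MvPolynomial σ k →+* Polynomial k) w
  rw [h4, h0, Polynomial.eval₂_at_zero] at h3
  -- the constant coefficient is a polynomial in one variable
  have h5 : θ (aeval ![z] (Q.coeff 0)) = 0 := h3
  let q : Polynomial k := aeval (fun _ : Fin 1 => (Polynomial.X : Polynomial k)) (Q.coeff 0)
  have hq : q ≠ 0 := by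
    intro h
    apply hQ
    have h6 : (Polynomial.aeval (X 0 : MvPolynomial (Fin 1) k)) q = Q.coeff 0 := by
      have : ((Polynomial.aeval (X 0 : MvPolynomial (Fin 1) k)).comp
          (aeval (fun _ : Fin 1 => (Polynomial.X : Polynomial k))) :
          MvPolynomial (Fin 1) k →ₐ[k] MvPolynomial (Fin 1) k) = AlgHom.id k _ := by
        apply MvPolynomial.algHom_ext
        intro i
        simp [Subsingleton.elim i 0]
      exact congrArg (fun φ : MvPolynomial (Fin 1) k →ₐ[k] MvPolynomial (Fin 1) k =>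
        φ (Q.coeff 0)) this
    rw [← h6, h, map_zero]
  apply htr q hq
  rw [← h5]
  have : ((Polynomial.aeval (θ z)).comp
      (aeval (fun _ : Fin 1 => (Polynomial.X : Polynomial k))) :
      MvPolynomial (Fin 1) k →ₐ[k] Polynomial k) = θ.comp (aeval ![z]) := by
    apply MvPolynomial.algHom_ext
    intro i
    simp
  exact congrArg (fun φ : MvPolynomial (Fin 1) k →ₐ[k] Polynomial k => φ (Q.coeff 0)) this

/-- an algebraically closed subalgebra of a polynomial ring is integrally closed -/
theorem uni_int {k : Type} [Field k] {σ : Type} (A : Subalgebra k (MvPolynomial σ k))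
    (hA : ∀ z : MvPolynomial σ k, IsAlgebraic A z → z ∈ A) : IsIntegrallyClosed A := by
  rw [isIntegrallyClosed_iff (FractionRing A)]
  intro x hx
  let M := MvPolynomial σ k
  let L := FractionRing M
  let g : A →+* L := (algebraMap M L).comp A.val.toRingHom
  have hg : Function.Injective g :=
    (IsFractionRing.injective M L).comp Subtype.val_injective
  let ι : FractionRing A →+* L := IsFractionRing.lift hg
  have hι : ∀ a : A, ι (algebraMap A (FractionRing A) a) = algebraMap M L a.1 :=
    fun a => IsFractionRing.lift_algebraMap hg a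
  have h1 : IsIntegral M (ι x) := by
    obtain ⟨p, hp, hpx⟩ := hx
    refine ⟨p.map A.val.toRingHom, hp.map _, ?_⟩
    rw [Polynomial.eval₂_map]
    have h2 := congrArg ι hpx
    rw [map_zero, Polynomial.hom_eval₂] at h2
    rw [← h2]
    congr 1
    ext a
    exact (hι a).symm
  obtain ⟨c, hc⟩ := IsIntegrallyClosed.isIntegral_iff.mp h1
  obtain ⟨⟨a, b⟩, hab⟩ := IsLocalization.surj (nonZeroDivisors A) x
  have hb : (b.1 : M) ≠ 0 := by
    intro h
    exact nonZeroDivisors.coe_ne_zero b (Subtype.ext h)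
  have h2 : c * b.1.1 = a.1 := by
    apply IsFractionRing.injective M L
    rw [map_mul, hc, ← hι, ← hι, ← map_mul]
    exact congrArg ι hab
  have hcA : c ∈ A := by
    apply hA
    refine ⟨Polynomial.C b.1 * Polynomial.X - Polynomial.C a, ?_, ?_⟩
    · intro h
      have h3 := congrArg (fun p => Polynomial.coeff p 1) h
      simp [Polynomial.coeff_C] at h3
    · rw [map_sub, map_mul, Polynomial.aeval_C, Polynomial.aeval_C, Polynomial.aeval_X]
      change b.1.1 * c - a.1 = 0
      rw [← h2]
      ring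
  refine ⟨⟨c, hcA⟩, ?_⟩
  have hinj : Function.Injective ι := ι.injective
  apply hinj
  rw [hι]
  exact hc

theorem pf_UNI (hUNL : T_UNL) : T_UNI := by
  intro k _ _ _ σ _ A hA hd
  by_cases hc : ∀ a ∈ A, ∃ c : k, a = C c
  · refine ⟨0, A.zero_mem, ?_⟩
    intro a ha
    obtain ⟨c, hc⟩ := hc a ha
    rw [hc]
    exact (Algebra.adjoin k {0}).algebraMap_mem c
  push Not at hc
  obtain ⟨z, hz, hzc⟩ := hc
  obtain ⟨θ, hθ⟩ := uni_line z hzc
  have hinj0 := uni_inj A hd θ z hz hθ
  let φ : A →ₐ[k] Polynomial k := θ.comp A.val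
  have hφ : Function.Injective φ := by
    rw [injective_iff_map_eq_zero]
    intro a ha
    exact Subtype.ext (hinj0 a.1 a.2 ha)
  haveI := uni_int A hA
  haveI : IsIntegrallyClosed φ.range :=
    IsIntegrallyClosed.of_equiv (AlgEquiv.ofInjective φ hφ).toRingEquiv
  obtain ⟨g, hg, hg'⟩ := hUNL k φ.range inferInstance ⟨θ z, ⟨⟨z, hz⟩, rfl⟩, hθ⟩
  obtain ⟨p, rfl⟩ := hg
  refine ⟨p.1, p.2, ?_⟩
  intro a ha
  have h1 := hg' (φ ⟨a, ha⟩) ⟨⟨a, ha⟩, rfl⟩
  rw [Algebra.adjoin_singleton_eq_range_aeval] at h1 ⊢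
  obtain ⟨q, hq⟩ := h1
  refine ⟨q, ?_⟩
  have h2 : Polynomial.aeval p q = (⟨a, ha⟩ : A) := by
    apply hφ
    rw [← hq]
    exact (Polynomial.aeval_algHom_apply φ p q).symm
  have h3 : (Polynomial.aeval p q : A).1 = a := congrArg (fun x : A => x.1) h2
  exact (Polynomial.aeval_algHom_apply A.val p q).trans h3

end Pool.Agent.H20.TG
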